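import Pool.Agent.Helper59.RE.Exp

/-! # MP_9056e9_nt, project LD6, block T1: integration by parts -/

set_option autoImplicit false

namespace Pool.Agent.Helper80.LD6

open Set MeasureTheory Filter Topology
open Pool.Agent.Helper59.RE (e)

theorem exp_int {φ φ₁ φ₂ : ℝ → ℝ} {p q μ B₂ : ℝ} (hpq : p ≤ q) (h1 : ∀ x ∈ Icc p q, HasDerivAt φ (φ₁ x) x)
    (h2 : ∀ x ∈ Icc p q, HasDerivAt φ₁ (φ₂ x) x) (hc : ContinuousOn φ₂ (Icc p q)) (hμ : 0 < μ) (hφ : ∀ x ∈ Icc p q, μ ≤ |φ₁ x|)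
    (hB : ∀ x ∈ Icc p q, |φ₂ x| ≤ B₂) : ‖∫ x in p..q, e (φ x)‖ ≤ 1 / μ + B₂ * (q - p) / μ ^ 2 := by
  have hu : uIcc p q = Icc p q := uIcc_of_le hpq
  have hne : ∀ x ∈ Icc p q, φ₁ x ≠ 0 := fun x hx h => by
    have := hφ x hx
    rw [h, abs_zero] at this
    linarith
  have hc0 : ContinuousOn φ (Icc p q) := fun x hx => (h1 x hx).continuousAt.continuousWithinAt
  have hc1 : ContinuousOn φ₁ (Icc p q) := fun x hx => (h2 x hx).continuousAt.continuousWithinAt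
  have hce : ContinuousOn (fun x => e (φ x)) (Icc p q) := by
    unfold Pool.Agent.Helper59.RE.e
    exact Complex.continuous_exp.comp_continuousOn (continuousOn_const.mul (Complex.continuous_ofReal.comp_continuousOn hc0))
  have hpi : (2 * Real.pi * Complex.I : ℂ) ≠ 0 := by
    simp [Real.pi_ne_zero, Complex.I_ne_zero]
  have hcg : ContinuousOn (fun x => e (φ x) * ((φ₂ x : ℝ) : ℂ) / (2 * Real.pi * Complex.I * ((φ₁ x : ℝ) : ℂ) ^ 2)) (Icc p q) := by
    refine (hce.mul (Complex.continuous_ofReal.comp_continuousOn hc)).div ?_ ?_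
    · exact continuousOn_const.mul ((Complex.continuous_ofReal.comp_continuousOn hc1).pow 2)
    · intro x hx
      exact mul_ne_zero hpi (pow_ne_zero 2 (Complex.ofReal_ne_zero.mpr (hne x hx)))
  have hd : ∀ x ∈ uIcc p q, HasDerivAt (fun x => e (φ x) / (2 * Real.pi * Complex.I * ((φ₁ x : ℝ) : ℂ)))
      (e (φ x) - e (φ x) * ((φ₂ x : ℝ) : ℂ) / (2 * Real.pi * Complex.I * ((φ₁ x : ℝ) : ℂ) ^ 2)) x := by
    intro x hx
    rw [hu] at hx
    have h3 : HasDerivAt (fun x => e (φ x)) (e (φ x) * (2 * Real.pi * Complex.I * ((φ₁ x : ℝ) : ℂ))) x := by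
      unfold Pool.Agent.Helper59.RE.e
      exact ((h1 x hx).ofReal_comp.const_mul (2 * Real.pi * Complex.I : ℂ)).cexp
    have h4 : HasDerivAt (fun x => (2 * Real.pi * Complex.I * ((φ₁ x : ℝ) : ℂ) : ℂ)) (2 * Real.pi * Complex.I * ((φ₂ x : ℝ) : ℂ)) x :=
      (h2 x hx).ofReal_comp.const_mul _
    have h5 : (2 * Real.pi * Complex.I * ((φ₁ x : ℝ) : ℂ) : ℂ) ≠ 0 := mul_ne_zero hpi (Complex.ofReal_ne_zero.mpr (hne x hx))
    refine (h3.div h4 h5).congr_deriv ?_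
    have h6 : ((φ₁ x : ℝ) : ℂ) ≠ 0 := Complex.ofReal_ne_zero.mpr (hne x hx)
    field_simp
  have hint : IntervalIntegrable (fun x => e (φ x)) volume p q := by
    apply ContinuousOn.intervalIntegrable
    rwa [hu]
  have hint2 : IntervalIntegrable (fun x => e (φ x) * ((φ₂ x : ℝ) : ℂ) / (2 * Real.pi * Complex.I * ((φ₁ x : ℝ) : ℂ) ^ 2)) volume p q := by
    apply ContinuousOn.intervalIntegrable
    rwa [hu]
  have key := intervalIntegral.integral_eq_sub_of_hasDerivAt hd (hint.sub hint2)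
  rw [intervalIntegral.integral_sub hint hint2] at key
  have hpi1 : (1 : ℝ) ≤ 2 * Real.pi := by
    have := Real.pi_gt_three
    linarith
  have hn2pi : ‖(2 * Real.pi * Complex.I : ℂ)‖ = 2 * Real.pi := by
    rw [norm_mul, norm_mul, Complex.norm_I, mul_one, Complex.norm_real, Real.norm_eq_abs, abs_of_pos Real.pi_pos]
    simp
  have hend : ∀ x ∈ Icc p q, ‖e (φ x) / (2 * Real.pi * Complex.I * ((φ₁ x : ℝ) : ℂ))‖ ≤ 1 / (2 * Real.pi * μ) := by
    intro x hx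
    rw [norm_div, Pool.Agent.Helper59.RE.norm_e, norm_mul, hn2pi, Complex.norm_real, Real.norm_eq_abs]
    apply one_div_le_one_div_of_le
    · positivity
    · exact mul_le_mul_of_nonneg_left (hφ x hx) (by linarith)
  have hB0 : 0 ≤ B₂ := (abs_nonneg _).trans (hB p ⟨le_rfl, hpq⟩)
  have hrest : ‖∫ x in p..q, e (φ x) * ((φ₂ x : ℝ) : ℂ) / (2 * Real.pi * Complex.I * ((φ₁ x : ℝ) : ℂ) ^ 2)‖ ≤
      B₂ / μ ^ 2 * |q - p| := by
    apply intervalIntegral.norm_integral_le_of_norm_le_const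
    intro x hx
    rw [uIoc_of_le hpq] at hx
    have hx' : x ∈ Icc p q := ⟨hx.1.le, hx.2⟩
    rw [norm_div, norm_mul, Pool.Agent.Helper59.RE.norm_e, one_mul, norm_mul, hn2pi, norm_pow, Complex.norm_real, Complex.norm_real,
      Real.norm_eq_abs, Real.norm_eq_abs]
    have h7 : μ ^ 2 ≤ |φ₁ x| ^ 2 := pow_le_pow_left₀ hμ.le (hφ x hx') 2
    have h8 : μ ^ 2 ≤ 2 * Real.pi * |φ₁ x| ^ 2 := by nlinarith [sq_nonneg (|φ₁ x|)]
    exact div_le_div₀ hB0 (hB x hx') (by positivity) h8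
  rw [abs_of_nonneg (by linarith : 0 ≤ q - p)] at hrest
  have h9 : ∫ x in p..q, e (φ x) = (e (φ q) / (2 * Real.pi * Complex.I * ((φ₁ q : ℝ) : ℂ)) -
      e (φ p) / (2 * Real.pi * Complex.I * ((φ₁ p : ℝ) : ℂ))) +
      ∫ x in p..q, e (φ x) * ((φ₂ x : ℝ) : ℂ) / (2 * Real.pi * Complex.I * ((φ₁ x : ℝ) : ℂ) ^ 2) := by
    rw [← key]
    ring
  rw [h9]
  refine (norm_add_le _ _).trans ?_
  have h10 := (norm_sub_le (e (φ q) / (2 * Real.pi * Complex.I * ((φ₁ q : ℝ) : ℂ))) (e (φ p) / (2 * Real.pi * Complex.I * ((φ₁ p : ℝ) : ℂ)))).trans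
    (add_le_add (hend q ⟨hpq, le_rfl⟩) (hend p ⟨le_rfl, hpq⟩))
  have h11 : 1 / (2 * Real.pi * μ) + 1 / (2 * Real.pi * μ) ≤ 1 / μ := by
    have h12 : 1 / (2 * Real.pi * μ) + 1 / (2 * Real.pi * μ) = (1 / Real.pi) * (1 / μ) := by
      have := Real.pi_ne_zero
      field_simp
      norm_num
    rw [h12]
    have h13 : 1 / Real.pi ≤ 1 := by
      rw [div_le_one Real.pi_pos]
      linarith [Real.pi_gt_three]
    calc (1 / Real.pi) * (1 / μ) ≤ 1 * (1 / μ) := mul_le_mul_of_nonneg_right h13 (by positivity)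
      _ = 1 / μ := one_mul _
  have h14 : B₂ / μ ^ 2 * (q - p) = B₂ * (q - p) / μ ^ 2 := by ring
  rw [h14] at hrest
  linarith

end Pool.Agent.Helper80.LD6
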